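import Pool.Agent.R80.Uni.Tower
import Pool.Agent.Y380.EQ.Design

/-!
# 3-uniform hypergraphs without 2-regular subgraphs on 6 vertices

The conjectured bound fails for `k = 3`. Let `n = 4^(3^i) + 1`. There is a Steiner system with blocks of
size 5 on `n` points in which no four blocks meet pairwise in six different points; all triples inside
its blocks form a 3-uniform hypergraph with `C(n,2)` edges and without 2-regular subgraphs on 6
vertices.

Construction: a Hermitian unital over the field with `q^2` elements is a Steiner system with blocks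
of size `q + 1` on `q^3 + 1` points, and it has no O'Nan configuration (four blocks that meet pairwise
in six different points). The blocks of the unital for `q = 4` have 5 points and it has `65 = 64 + 1`
points. Fill every block of the unital for `q = 64` with a copy of it, and so on.
-/

set_option autoImplicit false

open Finset

namespace Pool.Agent.Results.MP_bc9e10_co.UnitalTriples

/-- A family `F` of edges is 2-regular: every vertex that lies in an edge of `F` lies in exactly two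
edges of `F`. -/
def IsTwoRegular {n : ℕ} (F : Finset (Finset (Fin n))) : Prop :=
  ∀ v : Fin n, (∃ e ∈ F, v ∈ e) → (F.filter fun e => v ∈ e).card = 2

/-- `H` has a 2-regular subgraph on `m` vertices. -/
def HasTwoRegular {n : ℕ} (m : ℕ) (H : Finset (Finset (Fin n))) : Prop :=
  ∃ F ⊆ H, IsTwoRegular F ∧ (F.biUnion id).card = m

/-- `M` is a family of pairwise disjoint `k`-sets that do not contain `v`. -/
def IsMatchingOmitting {n : ℕ} (k : ℕ) (v : Fin n) (M : Finset (Finset (Fin n))) : Prop :=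
  (∀ e ∈ M, e.card = k ∧ v ∉ e) ∧ ∀ e ∈ M, ∀ f ∈ M, e ≠ f → Disjoint e f

/-- `H` is a full `k`-star with some center `v` together with a maximal matching omitting `v`. -/
def IsStarPlusMatching {n : ℕ} (k : ℕ) (H : Finset (Finset (Fin n))) : Prop :=
  ∃ (v : Fin n) (M : Finset (Finset (Fin n))), IsMatchingOmitting k v M ∧
    (∀ M' : Finset (Finset (Fin n)), M ⊆ M' → IsMatchingOmitting k v M' → M' = M) ∧
    H = (univ.filter fun e : Finset (Fin n) => e.card = k ∧ v ∈ e) ∪ M

/-- The statement Q1: for every `k ≥ 3` and all large `n`, every `n`-vertex `k`-uniform hypergraph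
without 2-regular subgraphs on `2k` vertices has at most `C(n-1,k-1) + ⌊(n-1)/k⌋` edges, with
equality if and only if it is a full `k`-star together with a maximal matching omitting its
center. -/
def Question : Prop :=
  ∀ k : ℕ, 3 ≤ k → ∃ n₀ : ℕ, ∀ n : ℕ, n₀ ≤ n → ∀ H : Finset (Finset (Fin n)),
    (∀ e ∈ H, e.card = k) → ¬ HasTwoRegular (2 * k) H →
      H.card ≤ (n - 1).choose (k - 1) + (n - 1) / k ∧
      (H.card = (n - 1).choose (k - 1) + (n - 1) / k ↔ IsStarPlusMatching k H)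

open Pool.Agent.R80.Uni Pool.Agent.Helper660.FU

theorem count4 {n : ℕ} {A B C D : Finset (Fin n)} (h1 : A ≠ B) (h2 : A ≠ C) (h3 : A ≠ D)
    (h4 : B ≠ C) (h5 : B ≠ D) (h6 : C ≠ D) (v : Fin n) :
    (({A, B, C, D} : Finset (Finset (Fin n))).filter fun e => v ∈ e).card =
      (if v ∈ A then 1 else 0) + ((if v ∈ B then 1 else 0) + ((if v ∈ C then 1 else 0) +
        (if v ∈ D then 1 else 0))) := by
  rw [Finset.card_filter, Finset.sum_insert, Finset.sum_insert, Finset.sum_insert,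
    Finset.sum_singleton]
  · simpa using h6
  · simp [h4, h5]
  · simp [h1, h2, h3]

/-- a repeated disjoint union is a 2-regular subgraph -/
theorem hasTwoRegular_of_rep {n : ℕ} {H : Finset (Finset (Fin n))} (h3 : ∀ e ∈ H, e.card = 3)
    (h : Rep H) : HasTwoRegular 6 H := by
  obtain ⟨A, hA, B, hB, C, hC, D, hD, d1, d2, hu, n1, n2⟩ := h
  have hne : ∀ X ∈ H, X.Nonempty := fun X hX => Finset.card_pos.1 (by rw [h3 X hX]; norm_num)
  have eAB : A ≠ B := by
    rintro rfl
    obtain ⟨x, hx⟩ := hne A hA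
    exact (Finset.disjoint_left.1 d1) hx hx
  have eCD : C ≠ D := by
    rintro rfl
    obtain ⟨x, hx⟩ := hne C hC
    exact (Finset.disjoint_left.1 d2) hx hx
  have eBC : B ≠ C := by
    rintro rfl
    apply n2
    have e1 : (A ∪ B) \ B = A := by
      rw [Finset.union_sdiff_right, Finset.sdiff_eq_self_of_disjoint d1]
    have e2 : (B ∪ D) \ B = D := by
      rw [Finset.union_sdiff_left, Finset.sdiff_eq_self_of_disjoint d2.symm]
    rw [← e1, hu, e2]
  have eBD : B ≠ D := by
    rintro rfl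
    apply n1
    have e1 : (A ∪ B) \ B = A := by
      rw [Finset.union_sdiff_right, Finset.sdiff_eq_self_of_disjoint d1]
    have e2 : (C ∪ B) \ B = C := by
      rw [Finset.union_sdiff_right, Finset.sdiff_eq_self_of_disjoint d2]
    rw [← e1, hu, e2]
  have hmem : ∀ v, v ∈ A ∨ v ∈ B ↔ v ∈ C ∨ v ∈ D := by
    intro v
    rw [← Finset.mem_union, hu, Finset.mem_union]
  refine ⟨{A, B, C, D}, ?_, ?_, ?_⟩
  · intro X hX
    simp only [Finset.mem_insert, Finset.mem_singleton] at hX
    rcases hX with rfl | rfl | rfl | rfl <;> assumption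
  · rintro v ⟨e, he, hv⟩
    rw [count4 eAB n1 n2 eBC eBD eCD]
    have g1 : ¬ (v ∈ A ∧ v ∈ B) := fun h => (Finset.disjoint_left.1 d1) h.1 h.2
    have g2 : ¬ (v ∈ C ∧ v ∈ D) := fun h => (Finset.disjoint_left.1 d2) h.1 h.2
    have g3 := hmem v
    have g4 : v ∈ A ∨ v ∈ B := by
      simp only [Finset.mem_insert, Finset.mem_singleton] at he
      rcases he with rfl | rfl | rfl | rfl
      · exact Or.inl hv
      · exact Or.inr hv
      · exact g3.2 (Or.inl hv)
      · exact g3.2 (Or.inr hv)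
    by_cases a : v ∈ A <;> by_cases b : v ∈ B <;> by_cases c : v ∈ C <;> by_cases d : v ∈ D <;>
      simp_all
  · have : ({A, B, C, D} : Finset (Finset (Fin n))).biUnion id = A ∪ B := by
      ext v
      simp only [Finset.mem_biUnion, Finset.mem_insert, Finset.mem_singleton, id,
        exists_eq_or_imp, exists_eq_left, Finset.mem_union]
      have := hmem v
      tauto
    rw [this, Finset.card_union_of_disjoint d1, h3 A hA, h3 B hB]

/-- the triples inside the blocks of a Steiner system without O'Nan configurations -/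
theorem not_hasTwoRegular {n : ℕ} {𝓑 : Finset (Finset (Fin n))}
    (hB : ∀ X ∈ 𝓑, X.card = 5) (hN : NoQ 𝓑) {H : Finset (Finset (Fin n))}
    (hH : ∀ e : Finset (Fin n), e ∈ H ↔ e.card = 3 ∧ ∃ X ∈ 𝓑, e ⊆ X) (hrep : ¬ Rep H) :
    ¬ HasTwoRegular 6 H := by
  rintro ⟨F, hFH, h2, hc⟩
  have h3 : ∀ e ∈ F, e.card = 3 := fun e he => ((hH e).1 (hFH he)).1
  have hF4 : F.card = 4 := by
    have e1 : ∑ e ∈ F, e.card = ∑ v ∈ F.biUnion id, (F.filter fun e => v ∈ e).card := by
      have e2 : ∀ e ∈ F, e.card = ∑ v ∈ F.biUnion id, if v ∈ e then 1 else 0 := by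
        intro e he
        rw [← Finset.card_filter]
        congr 1
        ext v
        rw [Finset.mem_filter, Finset.mem_biUnion]
        exact ⟨fun hv => ⟨⟨e, he, hv⟩, hv⟩, fun hv => hv.2⟩
      rw [Finset.sum_congr rfl e2, Finset.sum_comm]
      refine Finset.sum_congr rfl fun v _ => ?_
      rw [Finset.card_filter]
    rw [Finset.sum_congr rfl h3, Finset.sum_const, smul_eq_mul,
      Finset.sum_congr rfl (g := fun _ => 2) (fun v hv => by
        rw [Finset.mem_biUnion] at hv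
        exact h2 v hv), Finset.sum_const, smul_eq_mul, hc] at e1
    omega
  obtain ⟨A, hA⟩ := Finset.card_pos.1 (by rw [hF4]; norm_num : 0 < F.card)
  have hc3 : (F.erase A).card = 3 := by rw [Finset.card_erase_of_mem hA, hF4]
  obtain ⟨B, C, D, hBC, hBD, hCD, hE⟩ := Finset.card_eq_three.1 hc3
  have mB : B ∈ F.erase A := by rw [hE]; simp
  have mC : C ∈ F.erase A := by rw [hE]; simp
  have mD : D ∈ F.erase A := by rw [hE]; simp
  rw [Finset.mem_erase] at mB mC mD
  have hFeq : F = {A, B, C, D} := by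
    rw [← Finset.insert_erase hA, hE]
  have hcnt : ∀ v : Fin n, (v ∈ A ∨ v ∈ B ∨ v ∈ C ∨ v ∈ D) →
      (if v ∈ A then 1 else 0) + ((if v ∈ B then 1 else 0) + ((if v ∈ C then 1 else 0) +
        (if v ∈ D then 1 else 0))) = 2 := by
    intro v hv
    rw [← count4 mB.1.symm mC.1.symm mD.1.symm hBC hBD hCD v, ← hFeq]
    apply h2
    rcases hv with h | h | h | h
    · exact ⟨A, hA, h⟩
    · exact ⟨B, mB.2, h⟩
    · exact ⟨C, mC.2, h⟩
    · exact ⟨D, mD.2, h⟩
  have hall : F.biUnion id = A ∪ (B ∪ (C ∪ D)) := by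
    ext v
    rw [hFeq]
    simp only [Finset.mem_biUnion, Finset.mem_insert, Finset.mem_singleton, id,
      exists_eq_or_imp, exists_eq_left, Finset.mem_union]
  -- two disjoint members give a repeated union
  have key : ∀ P Q R S : Finset (Fin n), P ∈ H → Q ∈ H → R ∈ H → S ∈ H → P.card = 3 → Q.card = 3 →
      P ≠ R → P ≠ S → (∀ v : Fin n, (v ∈ P ∨ v ∈ Q ∨ v ∈ R ∨ v ∈ S) →
      (if v ∈ P then 1 else 0) + ((if v ∈ Q then 1 else 0) + ((if v ∈ R then 1 else 0) +
        (if v ∈ S then 1 else 0))) = 2) → (P ∪ (Q ∪ (R ∪ S))).card = 6 → ¬ Disjoint P Q := by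
    intro P Q R S hP hQ hR hS cP cQ n1 n2 hv h6 hd
    apply hrep
    have hPQ : P ∪ Q = P ∪ (Q ∪ (R ∪ S)) := by
      apply Finset.eq_of_subset_of_card_le
      · rw [← Finset.union_assoc]
        exact Finset.subset_union_left
      · rw [h6, Finset.card_union_of_disjoint hd, cP, cQ]
    have hsub : ∀ v, v ∈ R ∨ v ∈ S → v ∈ P ∨ v ∈ Q := by
      intro v h
      rw [← Finset.mem_union, hPQ, Finset.mem_union, Finset.mem_union, Finset.mem_union]
      exact Or.inr (Or.inr h)
    have hnd : ∀ v, ¬ (v ∈ P ∧ v ∈ Q) := fun v h => (Finset.disjoint_left.1 hd) h.1 h.2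
    refine ⟨P, hP, Q, hQ, R, hR, S, hS, hd, ?_, ?_, n1, n2⟩
    · rw [Finset.disjoint_left]
      intro v h1 h2
      have g1 := hv v (Or.inr (Or.inr (Or.inl h1)))
      have g2 := hsub v (Or.inl h1)
      have g3 := hnd v
      by_cases a : v ∈ P <;> by_cases b : v ∈ Q <;> simp_all
    · ext v
      rw [Finset.mem_union, Finset.mem_union]
      refine ⟨fun h => ?_, fun h => hsub v h⟩
      have g1 := hv v (by tauto)
      have g3 := hnd v
      by_cases a : v ∈ P <;> by_cases b : v ∈ Q <;> by_cases c : v ∈ R <;> by_cases d : v ∈ S <;>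
        simp_all
  have hAH := hFH hA
  have hBH := hFH mB.2
  have hCH := hFH mC.2
  have hDH := hFH mD.2
  have h6 : (A ∪ (B ∪ (C ∪ D))).card = 6 := by rw [← hall]; exact hc
  have cA := h3 A hA
  have cB := h3 B mB.2
  have cC := h3 C mC.2
  have cD := h3 D mD.2
  have nAB := key A B C D hAH hBH hCH hDH cA cB mC.1.symm mD.1.symm hcnt h6
  have nAC := key A C B D hAH hCH hBH hDH cA cC mB.1.symm mD.1.symm
    (fun v hv => by have := hcnt v (by tauto); omega) (by rw [← h6]; congr 1; ext v; simp only [Finset.mem_union]; tauto)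
  have nAD := key A D B C hAH hDH hBH hCH cA cD mB.1.symm mC.1.symm
    (fun v hv => by have := hcnt v (by tauto); omega) (by rw [← h6]; congr 1; ext v; simp only [Finset.mem_union]; tauto)
  have nBC := key B C A D hBH hCH hAH hDH cB cC mB.1 hBD
    (fun v hv => by have := hcnt v (by tauto); omega) (by rw [← h6]; congr 1; ext v; simp only [Finset.mem_union]; tauto)
  have nBD := key B D A C hBH hDH hAH hCH cB cD mB.1 hBC
    (fun v hv => by have := hcnt v (by tauto); omega) (by rw [← h6]; congr 1; ext v; simp only [Finset.mem_union]; tauto)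
  have nCD := key C D A B hCH hDH hAH hBH cC cD mC.1 hBC.symm
    (fun v hv => by have := hcnt v (by tauto); omega) (by rw [← h6]; congr 1; ext v; simp only [Finset.mem_union]; tauto)
  obtain ⟨p, pA, pB⟩ := Finset.not_disjoint_iff.1 nAB
  obtain ⟨q, qA, qC⟩ := Finset.not_disjoint_iff.1 nAC
  obtain ⟨r, rA, rD⟩ := Finset.not_disjoint_iff.1 nAD
  obtain ⟨s, sB, sC⟩ := Finset.not_disjoint_iff.1 nBC
  obtain ⟨t, tB, tD⟩ := Finset.not_disjoint_iff.1 nBD
  obtain ⟨u, uC, uD⟩ := Finset.not_disjoint_iff.1 nCD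
  have cp := hcnt p (Or.inl pA)
  have cq := hcnt q (Or.inl qA)
  have cr := hcnt r (Or.inl rA)
  have cs := hcnt s (Or.inr (Or.inl sB))
  have ct := hcnt t (Or.inr (Or.inl tB))
  have cu := hcnt u (Or.inr (Or.inr (Or.inl uC)))
  simp only [pA, pB, qA, qC, rA, rD, sB, sC, tB, tD, uC, uD, if_true] at cp cq cr cs ct cu
  have pC : p ∉ C := fun h => by rw [if_pos h] at cp; split_ifs at cp <;> omega
  have pD : p ∉ D := fun h => by rw [if_pos h] at cp; split_ifs at cp <;> omega
  have qB : q ∉ B := fun h => by rw [if_pos h] at cq; split_ifs at cq <;> omega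
  have qD : q ∉ D := fun h => by rw [if_pos h] at cq; split_ifs at cq <;> omega
  have rB : r ∉ B := fun h => by rw [if_pos h] at cr; split_ifs at cr <;> omega
  have rC : r ∉ C := fun h => by rw [if_pos h] at cr; split_ifs at cr <;> omega
  have sA : s ∉ A := fun h => by rw [if_pos h] at cs; split_ifs at cs <;> omega
  have sD : s ∉ D := fun h => by rw [if_pos h] at cs; split_ifs at cs <;> omega
  have tA : t ∉ A := fun h => by rw [if_pos h] at ct; split_ifs at ct <;> omega
  have tC : t ∉ C := fun h => by rw [if_pos h] at ct; split_ifs at ct <;> omega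
  have uA : u ∉ A := fun h => by rw [if_pos h] at cu; split_ifs at cu <;> omega
  have uB : u ∉ B := fun h => by rw [if_pos h] at cu; split_ifs at cu <;> omega
  have hnodup : [p, q, r, s, t, u].Nodup := by
    simp only [List.nodup_cons, List.mem_cons, List.not_mem_nil, or_false, not_or,
      not_false_eq_true, List.nodup_nil, and_true]
    refine ⟨⟨?_, ?_, ?_, ?_, ?_⟩, ⟨?_, ?_, ?_, ?_⟩, ⟨?_, ?_, ?_⟩, ⟨?_, ?_⟩, ?_⟩ <;> rintro rfl <;>
      contradiction
  obtain ⟨X₁, k₁, s₁⟩ := ((hH A).1 hAH).2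
  obtain ⟨X₂, k₂, s₂⟩ := ((hH B).1 hBH).2
  obtain ⟨X₃, k₃, s₃⟩ := ((hH C).1 hCH).2
  obtain ⟨X₄, k₄, s₄⟩ := ((hH D).1 hDH).2
  obtain ⟨X, hX, x1, x2, x3, x4, x5, x6⟩ := hN X₁ k₁ X₂ k₂ X₃ k₃ X₄ k₄ p q r s t u hnodup
    (s₁ pA) (s₁ qA) (s₁ rA) (s₂ pB) (s₂ sB) (s₂ tB) (s₃ qC) (s₃ sC) (s₃ uC) (s₄ rD) (s₄ tD) (s₄ uD)
  have h7 : ([p, q, r, s, t, u].toFinset).card = 6 := List.toFinset_card_of_nodup hnodup
  have h8 : [p, q, r, s, t, u].toFinset ⊆ X := by
    intro v hv
    rw [List.mem_toFinset] at hv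
    simp only [List.mem_cons, List.not_mem_nil, or_false] at hv
    rcases hv with rfl | rfl | rfl | rfl | rfl | rfl <;> assumption
  have h9 := Finset.card_le_card h8
  rw [h7, hB X hX] at h9
  omega

theorem exists_extremal (i : ℕ) : ∃ H : Finset (Finset (Fin (4 ^ 3 ^ i + 1))),
    (∀ e ∈ H, e.card = 3) ∧ ¬ HasTwoRegular 6 H ∧ H.card = (4 ^ 3 ^ i + 1).choose 2 := by
  classical
  obtain ⟨𝓑, h1, h2⟩ := good_tower i
  have hdes : Pool.Agent.Y380.EQ.Des 𝓑 := by
    refine ⟨fun X hX => (h1.1 X hX).2, fun a b hab => ?_⟩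
    obtain ⟨Y, hY, ha, hb, hu⟩ := h1.2 a (mem_univ _) b (mem_univ _) hab
    exact ⟨Y, ⟨hY, ha, hb⟩, fun Z hZ => hu Z hZ.1 hZ.2.1 hZ.2.2⟩
  set H : Finset (Finset (Fin (4 ^ 3 ^ i + 1))) :=
    univ.filter fun e => e.card = 3 ∧ ∃ X ∈ 𝓑, e ⊆ X with hHd
  have hH : ∀ e : Finset (Fin (4 ^ 3 ^ i + 1)), e ∈ H ↔ e.card = 3 ∧ ∃ X ∈ 𝓑, e ⊆ X := by
    intro e
    rw [hHd, Finset.mem_filter]
    exact ⟨fun h => h.2, fun h => ⟨mem_univ _, h⟩⟩
  obtain ⟨h3, h4⟩ := hdes.triples H hH
  rw [Fintype.card_fin] at h4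
  exact ⟨H, fun e he => ((hH e).1 he).1, not_hasTwoRegular hdes.1 h2 hH h3, h4⟩

theorem upper {n : ℕ} {H : Finset (Finset (Fin n))} (h3 : ∀ e ∈ H, e.card = 3)
    (h : ¬ HasTwoRegular 6 H) : H.card ≤ n.choose 2 := by
  have := main_bound H h3 fun hr => h (hasTwoRegular_of_rep h3 hr)
  rwa [Fintype.card_fin] at this

theorem lt_choose {n : ℕ} (hn : 2 ≤ n) : (n - 1).choose 2 + (n - 1) / 3 < n.choose 2 := by
  obtain ⟨m, rfl⟩ : ∃ m, n = m + 1 := ⟨n - 1, by omega⟩
  have h1 : (m + 1).choose 2 = m + m.choose 2 := by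
    rw [Nat.choose_succ_succ' m 1, Nat.choose_one_right]
  rw [Nat.add_sub_cancel, h1]
  omega

/-- The statement Q1 is false. For `k = 3` and all `n = 4^(3^i) + 1` the maximum number of edges of a
3-uniform hypergraph on `n` vertices without 2-regular subgraphs on 6 vertices is `C(n,2)`, which is
larger than `C(n-1,2) + ⌊(n-1)/3⌋`. -/
theorem result :
    ¬ Question ∧
    ∀ i n : ℕ, n = 4 ^ 3 ^ i + 1 →
      (n - 1).choose 2 + (n - 1) / 3 < n.choose 2 ∧
      (∃ H : Finset (Finset (Fin n)), (∀ e ∈ H, e.card = 3) ∧ ¬ HasTwoRegular (2 * 3) H ∧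
        H.card = n.choose 2) ∧
      (∀ H : Finset (Finset (Fin n)), (∀ e ∈ H, e.card = 3) → ¬ HasTwoRegular (2 * 3) H →
        H.card ≤ n.choose 2) := by
  have main : ∀ i n : ℕ, n = 4 ^ 3 ^ i + 1 →
      (n - 1).choose 2 + (n - 1) / 3 < n.choose 2 ∧
      (∃ H : Finset (Finset (Fin n)), (∀ e ∈ H, e.card = 3) ∧ ¬ HasTwoRegular (2 * 3) H ∧
        H.card = n.choose 2) ∧
      (∀ H : Finset (Finset (Fin n)), (∀ e ∈ H, e.card = 3) → ¬ HasTwoRegular (2 * 3) H →
        H.card ≤ n.choose 2) := by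
    rintro i n rfl
    refine ⟨lt_choose ?_, exists_extremal i, fun H h3 h => upper h3 h⟩
    have : 0 < 4 ^ 3 ^ i := by positivity
    omega
  refine ⟨fun hQ => ?_, main⟩
  obtain ⟨n₀, hn₀⟩ := hQ 3 le_rfl
  have hge : n₀ ≤ 4 ^ 3 ^ n₀ + 1 := by
    have h1 : n₀ < 3 ^ n₀ := Nat.lt_pow_self (by norm_num)
    have h2 : 3 ^ n₀ < 4 ^ 3 ^ n₀ := Nat.lt_pow_self (by norm_num)
    omega
  obtain ⟨h1, ⟨H, h3, h2, hc⟩, _⟩ := main n₀ _ rfl
  have h4 := (hn₀ _ hge H h3 h2).1
  rw [hc] at h4
  exact absurd (lt_of_le_of_lt h4 h1) (lt_irrefl _)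

end Pool.Agent.Results.MP_bc9e10_co.UnitalTriples
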